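import Pool.Agent.Helper67.SQ.Basic
import Pool.Agent.Helper40.SQ.SolDist

/-!
# Block 9: the hyperbolic plane and the binary tiling
-/

namespace Helper67.SQ

open Real

theorem vert_zero (p : UpperHalfPlane) : vert p (0, 0) = p := by
  apply UpperHalfPlane.ext
  apply Complex.ext
  · simp [vert]
  · simp [vert]

theorem vert_re (p : UpperHalfPlane) (v : V) :
    (vert p v).re = p.re + p.im * (2 : ℝ) ^ (-v.1) * v.2 := rfl

theorem vert_im (p : UpperHalfPlane) (v : V) :
    (vert p v).im = p.im * (2 : ℝ) ^ (-v.1) := rfl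

/-- The distance of two vertices. -/
theorem cosh_dist_vert (p : UpperHalfPlane) (v w : V) :
    cosh (dist (vert p v) (vert p w)) * (2 * (2 : ℝ) ^ (-v.1) * (2 : ℝ) ^ (-w.1)) =
      2 * (2 : ℝ) ^ (-v.1) * (2 : ℝ) ^ (-w.1) +
      (((2 : ℝ) ^ (-v.1) * v.2 - (2 : ℝ) ^ (-w.1) * w.2) ^ 2 +
        ((2 : ℝ) ^ (-v.1) - (2 : ℝ) ^ (-w.1)) ^ 2) := by
  have ha : (0 : ℝ) < (2 : ℝ) ^ (-v.1) := zpow_pos (by norm_num) _
  have hb : (0 : ℝ) < (2 : ℝ) ^ (-w.1) := zpow_pos (by norm_num) _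
  have hp := p.im_pos
  rw [UpperHalfPlane.cosh_dist', vert_re, vert_re, vert_im, vert_im]
  set a := (2 : ℝ) ^ (-v.1)
  set b := (2 : ℝ) ^ (-w.1)
  field_simp
  ring

theorem three_halves_le_cosh_one : (3 : ℝ) / 2 ≤ cosh 1 := by
  rw [cosh_eq]
  have h1 := exp_one_gt_d9
  have h2 := exp_one_lt_d9
  have h3 : exp (-1) = (exp 1)⁻¹ := exp_neg 1
  have h4 : (0.36 : ℝ) ≤ (exp 1)⁻¹ := by
    rw [le_inv_comm₀ (by norm_num) (exp_pos 1)]
    refine h2.le.trans (by norm_num)
  rw [h3]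
  linarith

theorem dist_vert_edge (p : UpperHalfPlane) {v w : V} (h : Edge v w) :
    dist (vert p v) (vert p w) ≤ 1 := by
  have key : cosh (dist (vert p v) (vert p w)) ≤ 3 / 2 := by
    have hc := cosh_dist_vert p v w
    have ha : (0 : ℝ) < (2 : ℝ) ^ (-v.1) := zpow_pos (by norm_num) _
    have hb : (0 : ℝ) < (2 : ℝ) ^ (-w.1) := zpow_pos (by norm_num) _
    set c := cosh (dist (vert p v) (vert p w))
    have hs : ∀ d : ℤ, (2 : ℝ) ^ (-(d + 1)) = (2 : ℝ) ^ (-d) / 2 := by
      intro d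
      rw [neg_add, zpow_add₀ (by norm_num)]
      norm_num
      ring
    cases h with
    | horiz d j =>
      simp only at hc ha hb
      push_cast at hc
      set a := (2 : ℝ) ^ (-d)
      have h2 : (0 : ℝ) < a * a := mul_pos ha ha
      have h3 : c * (a * a) = 3 / 2 * (a * a) := by linarith [hc]
      nlinarith
    | left d j =>
      simp only [hs] at hc ha hb
      push_cast at hc
      set a := (2 : ℝ) ^ (-d)
      have h2 : (0 : ℝ) < a * a := mul_pos ha ha
      have h3 : c * (a * a) = 5 / 4 * (a * a) := by linarith [hc]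
      nlinarith
    | right d j =>
      simp only [hs] at hc ha hb
      push_cast at hc
      set a := (2 : ℝ) ^ (-d)
      have h2 : (0 : ℝ) < a * a := mul_pos ha ha
      have h3 : c * (a * a) = 3 / 2 * (a * a) := by linarith [hc]
      nlinarith
    | diag d j =>
      simp only [hs] at hc ha hb
      push_cast at hc
      set a := (2 : ℝ) ^ (-d)
      have h2 : (0 : ℝ) < a * a := mul_pos ha ha
      have h3 : c * (a * a) = 3 / 2 * (a * a) := by linarith [hc]
      nlinarith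
  have h1 := cosh_le_cosh.1 (key.trans three_halves_le_cosh_one)
  rwa [abs_of_nonneg dist_nonneg, abs_of_pos one_pos] at h1

theorem dist_vert_adj (p : UpperHalfPlane) {v w : V} (h : Adj v w) :
    dist (vert p v) (vert p w) ≤ 1 := by
  rcases h with h | h
  · exact dist_vert_edge p h
  · rw [dist_comm]; exact dist_vert_edge p h

theorem vert_near (p : UpperHalfPlane) (n : ℕ) (v w : V) (h : Near n v w) :
    dist (vert p v) (vert p w) ≤ n := by
  induction n generalizing v with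
  | zero => rw [show v = w from h]; simp
  | succ n ih =>
    obtain ⟨r, hr, h'⟩ := h
    have h1 := ih r h'
    have h2 : dist (vert p v) (vert p r) ≤ 1 := by
      rcases hr with rfl | hr
      · simp
      · exact dist_vert_adj p hr
    push_cast
    linarith [dist_triangle (vert p v) (vert p r) (vert p w)]

/-- Going up. -/
theorem up_near (d j : ℤ) (k : ℕ) : Near k ((d, j) : V) (d - k, j / 2 ^ k) := by
  induction k with
  | zero => simpa using Near.refl 0 (d, j)
  | succ k ih =>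
    refine ih.trans (Near.of_adj ?_)
    right
    set e := j / 2 ^ k with he
    have h1 : j / 2 ^ (k + 1) = e / 2 := by
      rw [he, Int.ediv_ediv_of_nonneg (by positivity), pow_succ]
    have h2 : d - ((k + 1 : ℕ) : ℤ) = d - k - 1 := by push_cast; ring
    rw [h1, h2]
    rcases Int.even_or_odd' e with ⟨q, hq | hq⟩
    · have h3 : e / 2 = q := by omega
      have h4 := Edge.left (d - k - 1) q
      rw [h3, hq]
      rwa [sub_add_cancel] at h4
    · have h3 : e / 2 = q := by omega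
      have h4 := Edge.right (d - k - 1) q
      rw [h3, hq]
      rwa [sub_add_cancel] at h4

theorem near_horiz (d : ℤ) {i j : ℤ} (h : |i - j| ≤ 1) : Near 1 ((d, i) : V) (d, j) := by
  rw [abs_le] at h
  have : i = j ∨ j = i + 1 ∨ i = j + 1 := by omega
  rcases this with rfl | rfl | rfl
  · exact Near.refl 1 _
  · exact Near.of_adj (Or.inl (Edge.horiz d i))
  · exact Near.of_adj (Or.inr (Edge.horiz d j))

theorem near_of_dist_aux (p : UpperHalfPlane) (v w : V) (n : ℕ) (hvw : v.1 ≤ w.1)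
    (hn : 4 * (dist (vert p v) (vert p w) + 1) ≤ n) : Near n v w := by
  obtain ⟨d, j⟩ := v
  obtain ⟨d', j'⟩ := w
  simp only at hvw
  obtain ⟨m, hm⟩ : ∃ m : ℕ, d' = d + m := ⟨(d' - d).toNat, by omega⟩
  subst hm
  set D := dist (vert p (d, j)) (vert p (d + m, j')) with hD
  have hD0 : 0 ≤ D := dist_nonneg
  have hc := cosh_dist_vert p (d, j) (d + m, j')
  rw [← hD] at hc
  simp only at hc
  have ha : (0 : ℝ) < (2 : ℝ) ^ (-d) := zpow_pos (by norm_num) _
  have hs : (2 : ℝ) ^ (-(d + (m : ℤ))) = (2 : ℝ) ^ (-d) / 2 ^ m := by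
    rw [neg_add, zpow_add₀ (by norm_num), zpow_neg _ (m : ℤ), zpow_natCast]
    rfl
  rw [hs] at hc
  set a := (2 : ℝ) ^ (-d)
  have hM : (0 : ℝ) < 2 ^ m := by positivity
  have hM1 : (1 : ℝ) ≤ 2 ^ m := one_le_pow₀ (by norm_num)
  have hch : cosh D ≤ exp D / 2 + 1 / 2 := by
    rw [cosh_eq]
    have : exp (-D) ≤ 1 := by rw [exp_le_one_iff]; linarith
    linarith
  have hch2 : exp D / 2 ≤ cosh D := by
    rw [cosh_eq]
    have := exp_pos (-D)
    linarith
  -- the depth difference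
  set x : ℝ := (j : ℝ) with hx
  set x' : ℝ := (j' : ℝ) / 2 ^ m with hx'
  have hc2 : cosh D * (2 * 2 ^ m) = 2 * 2 ^ m + ((2 ^ m) ^ 2 * (x - x') ^ 2 + (2 ^ m - 1) ^ 2) := by
    have h1 : a / 2 ^ m * (j' : ℝ) = a * x' := by rw [hx']; ring
    rw [h1] at hc
    have h2 : a * a ≠ 0 := by positivity
    have h3 : cosh D * (2 * a * (a / 2 ^ m)) * ((2 ^ m) ^ 2 / (a * a)) =
      (2 * a * (a / 2 ^ m) + ((a * x - a * x') ^ 2 + (a - a / 2 ^ m) ^ 2)) *
        ((2 ^ m) ^ 2 / (a * a)) := by rw [hc]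
    have e1 : cosh D * (2 * a * (a / 2 ^ m)) * ((2 ^ m) ^ 2 / (a * a)) =
      cosh D * (2 * 2 ^ m) := by field_simp
    have e2 : (2 * a * (a / 2 ^ m) + ((a * x - a * x') ^ 2 + (a - a / 2 ^ m) ^ 2)) *
        ((2 ^ m) ^ 2 / (a * a)) =
        2 * 2 ^ m + ((2 ^ m) ^ 2 * (x - x') ^ 2 + (2 ^ m - 1) ^ 2) := by
      field_simp
    rw [← e1, h3, e2]
  have hm1 : (2 : ℝ) ^ m ≤ 2 * cosh D := by
    -- 2 cosh D * 2^m = 2 * 2^m + ... + (2^m - 1)^2 ≥ 2^{2m} + 1
    have h1 : (2 : ℝ) ^ m * 2 ^ m ≤ 2 * cosh D * 2 ^ m := by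
      nlinarith [sq_nonneg ((2 : ℝ) ^ m * (x - x'))]
    exact le_of_mul_le_mul_right h1 hM
  have hm2 : (m : ℝ) ≤ 2 * D + 2 := by
    have h1 : (2 : ℝ) ^ m ≤ 2 * exp D := by
      have : cosh D ≤ exp D := by
        have : (1 : ℝ) ≤ exp D := by rw [one_le_exp_iff]; exact hD0
        linarith
      linarith
    have h2 := log_le_log hM h1
    rw [log_pow, log_mul (by norm_num) (exp_pos D).ne', log_exp] at h2
    have h3 := log_two_gt_d9
    have h4 := log_two_lt_d9
    nlinarith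
  have hxx : (x - x') ^ 2 ≤ exp D := by
    have h1 : (2 ^ m) ^ 2 * (x - x') ^ 2 ≤ 2 ^ m * exp D := by
      nlinarith [sq_nonneg ((2 : ℝ) ^ m - 1)]
    have h2 : (2 : ℝ) ^ m * (2 ^ m * (x - x') ^ 2) ≤ 2 ^ m * exp D := by
      linarith
    have h3 := le_of_mul_le_mul_left h2 hM
    nlinarith [sq_nonneg (x - x')]
  have hxx2 : |x - x'| ≤ exp (D / 2) := by
    apply abs_le_of_sq_le_sq _ (exp_pos _).le
    have e3 : exp (D / 2) ^ 2 = exp D := by
      rw [sq, ← exp_add, add_halves]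
    rw [e3]
    exact hxx
  -- go up by `k` levels
  set k : ℕ := ⌈D⌉₊ with hk
  have hk1 : D ≤ k := Nat.le_ceil D
  have hk2 : (k : ℝ) < D + 1 := Nat.ceil_lt_add_one hD0
  have hk3 : exp (D / 2) ≤ 2 ^ k := by
    rw [← exp_log (show (0 : ℝ) < 2 ^ k by positivity), log_pow]
    apply exp_le_exp.2
    have h3 := log_two_gt_d9
    nlinarith
  have hfl : |(j / 2 ^ k : ℤ) - (j' / 2 ^ (m + k) : ℤ)| ≤ 1 := by
    have h1 : (j / 2 ^ k : ℤ) = ⌊x / 2 ^ k⌋ := by
      have := Int.floor_div_natCast (x : ℝ) (2 ^ k)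
      rw [hx] at this ⊢
      push_cast at this
      rw [this]
      simp
    have h2 : (j' / 2 ^ (m + k) : ℤ) = ⌊x' / 2 ^ k⌋ := by
      have := Int.floor_div_natCast (j' : ℝ) (2 ^ (m + k))
      rw [hx']
      push_cast at this
      rw [div_div, ← pow_add, this]
      simp
    rw [h1, h2]
    have h3 : |x / 2 ^ k - x' / 2 ^ k| ≤ 1 := by
      rw [← sub_div, abs_div, abs_of_pos (show (0 : ℝ) < 2 ^ k by positivity),
        div_le_one (by positivity)]
      exact hxx2.trans hk3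
    have h4 := Int.floor_le (x / 2 ^ k)
    have h5 := Int.lt_floor_add_one (x / 2 ^ k)
    have h6 := Int.floor_le (x' / 2 ^ k)
    have h7 := Int.lt_floor_add_one (x' / 2 ^ k)
    rw [abs_le] at h3 ⊢
    have h8 : ((⌊x / 2 ^ k⌋ - ⌊x' / 2 ^ k⌋ : ℤ) : ℝ) < 2 := by push_cast; linarith
    have h9 : (-2 : ℝ) < ((⌊x / 2 ^ k⌋ - ⌊x' / 2 ^ k⌋ : ℤ) : ℝ) := by push_cast; linarith
    have h10 : ⌊x / 2 ^ k⌋ - ⌊x' / 2 ^ k⌋ < 2 := by exact_mod_cast h8
    have h11 : -2 < ⌊x / 2 ^ k⌋ - ⌊x' / 2 ^ k⌋ := by exact_mod_cast h9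
    constructor <;> omega
  have n1 := up_near d j k
  have n2 := up_near (d + m) j' (m + k)
  have e2 : d + (m : ℤ) - ((m + k : ℕ) : ℤ) = d - k := by push_cast; ring
  rw [e2] at n2
  have n3 := (n1.trans (near_horiz (d - k) hfl)).trans n2.symm
  refine n3.mono ?_
  have h1 : ((k + 1 + (m + k) : ℕ) : ℝ) < n + 1 := by
    push_cast
    linarith
  have h2 : k + 1 + (m + k) < n + 1 := by exact_mod_cast h1
  omega

theorem near_of_dist : ∃ C : ℝ, 1 ≤ C ∧ ∀ (p : UpperHalfPlane) (v w : V) (n : ℕ),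
    C * (dist (vert p v) (vert p w) + 1) ≤ n → Near n v w := by
  refine ⟨8, by norm_num, fun p v w n hn => ?_⟩
  have hd : 0 ≤ dist (vert p v) (vert p w) := dist_nonneg
  rcases le_total v.1 w.1 with h | h
  · exact near_of_dist_aux p v w n h (by linarith)
  · rw [dist_comm] at hn hd
    exact (near_of_dist_aux p w v n h (by linarith)).symm

theorem coarse_of_qi (K C : ℝ) (hK : 1 ≤ K) (hC : 0 ≤ C) : ∃ Λ : ℝ, 1 ≤ Λ ∧
    ∀ φ : UpperHalfPlane → Sol, IsQIEmb K C φ → ∀ p : UpperHalfPlane,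
    Coarse Λ (fun v => (φ (vert p v)).x) (fun v => (φ (vert p v)).y)
      (fun v => (φ (vert p v)).t) := by
  obtain ⟨C₀, hC₀, hnear⟩ := near_of_dist
  set E := K + C with hE
  have hE1 : 1 ≤ E := by linarith
  have hexp : 1 ≤ exp E := by rw [one_le_exp_iff]; linarith
  have hEE : E ≤ E * exp E := by nlinarith
  have hKC : 0 ≤ K * C := by positivity
  have hF : 0 ≤ C₀ * (K + K * C + 1) := by positivity
  refine ⟨E * exp E + C₀ * (K + K * C + 1), by linarith, fun φ hφ p => ?_⟩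
  set Λ := E * exp E + C₀ * (K + K * C + 1) with hΛ
  have hEΛ : E * exp E ≤ Λ := by linarith
  have hstep : ∀ v w, Adj v w → solDist (φ (vert p v)) (φ (vert p w)) ≤ E ∧
      0 ≤ solDist (φ (vert p v)) (φ (vert p w)) := by
    intro v w h
    have h1 := (hφ (vert p v) (vert p w)).2
    have h2 := dist_vert_adj p h
    refine ⟨by nlinarith, ?_⟩
    exact (abs_nonneg _).trans (solDist_lower _ _).1
  have hmul : ∀ v w, Adj v w → solDist (φ (vert p v)) (φ (vert p w)) *
      exp (solDist (φ (vert p v)) (φ (vert p w))) ≤ Λ := by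
    intro v w h
    obtain ⟨h1, h2⟩ := hstep v w h
    refine le_trans ?_ hEΛ
    have := exp_le_exp.2 h1
    have := exp_pos (solDist (φ (vert p v)) (φ (vert p w)))
    gcongr
  refine ⟨by linarith, ?_, ?_, ?_, ?_⟩
  · intro v w h
    have h1 := (solDist_lower (φ (vert p v)) (φ (vert p w))).1
    have h2 := (hstep v w h).1
    exact h1.trans (h2.trans (hEE.trans hEΛ))
  · intro v w h
    have h1 := (solDist_lower (φ (vert p v)) (φ (vert p w))).2.1
    refine h1.trans ?_
    exact mul_le_mul_of_nonneg_right (hmul v w h) (exp_pos _).le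
  · intro v w h
    have h1 := (solDist_lower (φ (vert p v)) (φ (vert p w))).2.2
    refine h1.trans ?_
    exact mul_le_mul_of_nonneg_right (hmul v w h) (exp_pos _).le
  · intro v w a b n hn
    apply hnear p v w n
    have h1 := solDist_le (φ (vert p v)) (φ (vert p w)) a b
    have h2 := (hφ (vert p v) (vert p w)).1
    set S := |(φ (vert p v)).t - a| + exp a * |(φ (vert p v)).x - (φ (vert p w)).x| + |b - a| +
      exp (-b) * |(φ (vert p v)).y - (φ (vert p w)).y| + |b - (φ (vert p w)).t| with hS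
    have hS0 : 0 ≤ S := by positivity
    have h3 : dist (vert p v) (vert p w) ≤ K * (S + C) := by
      have h4 : dist (vert p v) (vert p w) / K ≤ S + C := by linarith
      rw [div_le_iff₀ (by linarith)] at h4
      linarith
    refine le_trans ?_ hn
    have h5 : C₀ * (dist (vert p v) (vert p w) + 1) ≤ C₀ * (K * (S + C) + 1) := by
      gcongr
    refine h5.trans ?_
    have h6 : C₀ * (K * (S + C) + 1) ≤ C₀ * (K + K * C + 1) * (S + 1) := by
      have : K * (S + C) + 1 ≤ (K + K * C + 1) * (S + 1) := by nlinarith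
      calc C₀ * (K * (S + C) + 1) ≤ C₀ * ((K + K * C + 1) * (S + 1)) := by gcongr
        _ = C₀ * (K + K * C + 1) * (S + 1) := by ring
    refine h6.trans ?_
    have h7 : C₀ * (K + K * C + 1) ≤ Λ := by
      have : 0 ≤ E * exp E := by positivity
      linarith
    gcongr

end Helper67.SQ
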